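import Pool.Agent.Helper80.WS.Psi
import Pool.Agent.Helper33.WS.Split

open MvPolynomial Finset

namespace Pool.Agent.Helper9.WS

theorem psi_split {p : ℕ} [Fact p.Prime] {κ L : Type} [Field κ] [CharP κ p] [Field L] [CharZero L]
    (Φ : Frame p κ L) (M : ℕ) {γ : L} (hγ : Φ.v γ ≤ 1) (hγp : Φ.v (p : L) ≤ Φ.v γ)
    (ψ : AddChar (ZMod p) L) (hψ : ev p M γ = ψ 1) {K : Type} [Field K] [Fintype K]
    [Algebra (ZMod p) K] (ι : K →+* κ) {r : ℕ} (hr : Fintype.card K = p ^ r) (x : K) :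
    Φ.v (ψ (Algebra.trace (ZMod p) K x) - ∏ i ∈ range r, ev p M (γ * Φ.T (ι x) ^ p ^ i)) ≤
      Φ.v γ ^ M :=
  psi_split_of Φ M ψ hψ ι hr x fun t ht => split Φ M hγ hγp r t ht

end Pool.Agent.Helper9.WS
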