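import Pool.Agent.Helper9.WS.Defs

open MvPolynomial Finset

namespace Pool.Agent.Helper9.WS

theorem sum_teich {p : ℕ} [Fact p.Prime] {κ L : Type} [Field κ] [Field L] (Φ : Frame p κ L)
    {K : Type} [Field K] [Fintype K] (ι : K →+* κ) (N : ℕ) :
    ∑ x : K, Φ.T (ι x) ^ N = if N = 0 then (Fintype.card K : L) else
      if (Fintype.card K - 1) ∣ N then ((Fintype.card K - 1 : ℕ) : L) else 0 := by
  classical
  by_cases hN : N = 0
  · subst hN
    simp
  rw [if_neg hN]
  let f : Kˣ →* L :=
    { toFun := fun u => Φ.T (ι u) ^ N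
      map_one' := by simp
      map_mul' := fun a b => by simp [mul_pow] }
  have h1 : ∑ x : K, Φ.T (ι x) ^ N = ∑ u : Kˣ, f u := by
    rw [Fintype.sum_eq_add_sum_compl (0 : K)]
    have h0 : Φ.T (ι 0) ^ N = 0 := by simp [hN]
    rw [h0, zero_add]
    symm
    refine Finset.sum_bij (fun u _ => (u : K)) ?_ ?_ ?_ ?_
    · intro u _
      simp
    · intro a _ b _ h
      exact Units.ext h
    · intro b hb
      have hb' : b ≠ 0 := by simpa using hb
      exact ⟨Units.mk0 b hb', mem_univ _, rfl⟩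
    · intro u _
      rfl
  rw [h1]
  by_cases hd : (Fintype.card K - 1) ∣ N
  · rw [if_pos hd]
    obtain ⟨m, rfl⟩ := hd
    have h2 : ∀ u : Kˣ, f u = 1 := by
      intro u
      change Φ.T (ι u) ^ _ = 1
      rw [← map_pow, ← map_pow, pow_mul, FiniteField.pow_card_sub_one_eq_one (u : K) u.ne_zero]
      simp
    simp only [h2]
    rw [Finset.sum_const, Finset.card_univ, Fintype.card_units]
    simp
  · rw [if_neg hd]
    refine sum_hom_units_eq_zero f ?_
    intro hf
    apply hd
    obtain ⟨g, hg⟩ := IsCyclic.exists_generator (α := Kˣ)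
    have h3 : f g = 1 := by rw [hf]; rfl
    change Φ.T (ι g) ^ N = 1 at h3
    rw [← map_pow, ← map_pow] at h3
    have h4 : ι ((g : K) ^ N) = 1 := by
      apply Φ.T_inj
      rw [h3, map_one]
    have h5 : (g : K) ^ N = 1 := by
      apply ι.injective
      rw [h4, map_one]
    have h6 : g ^ N = 1 := by
      apply Units.ext
      simpa using h5
    have h7 := orderOf_dvd_of_pow_eq_one h6
    rwa [orderOf_eq_card_of_forall_mem_zpowers hg, Nat.card_eq_fintype_card,
      Fintype.card_units] at h7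

/-- `psi_split` from the block `split` (for the element `ι x`) -/
theorem psi_split_of {p : ℕ} [Fact p.Prime] {κ L : Type} [Field κ] [CharP κ p] [Field L]
    [CharZero L] (Φ : Frame p κ L) (M : ℕ) {γ : L}
    (ψ : AddChar (ZMod p) L) (hψ : ev p M γ = ψ 1) {K : Type} [Field K] [Fintype K]
    [Algebra (ZMod p) K] (ι : K →+* κ) {r : ℕ} (hr : Fintype.card K = p ^ r) (x : K)
    (hsplit : ∀ t : κ, t ^ p ^ r = t → ∃ n : ℕ, (n : κ) = ∑ i ∈ range r, t ^ p ^ i ∧
      Φ.v (∏ i ∈ range r, ev p M (γ * Φ.T t ^ p ^ i) - ev p M γ ^ n) ≤ Φ.v γ ^ M) :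
    Φ.v (ψ (Algebra.trace (ZMod p) K x) - ∏ i ∈ range r, ev p M (γ * Φ.T (ι x) ^ p ^ i)) ≤
      Φ.v γ ^ M := by
  classical
  have ht : (ι x) ^ p ^ r = ι x := by
    rw [← map_pow, ← hr, FiniteField.pow_card]
  obtain ⟨n, hn, hv⟩ := hsplit (ι x) ht
  have hrank : Module.finrank (ZMod p) K = r := by
    have h1 := Module.card_eq_pow_finrank (K := ZMod p) (V := K)
    rw [hr, ZMod.card] at h1
    exact (Nat.pow_right_injective (Fact.out : p.Prime).two_le h1).symm
  have htr : algebraMap (ZMod p) K (Algebra.trace (ZMod p) K x) = (n : K) := by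
    have h2 := FiniteField.algebraMap_trace_eq_sum_pow (K := ZMod p) (L := K) x
    rw [Nat.card_zmod, hrank] at h2
    apply ι.injective
    rw [h2, map_sum, map_natCast, hn]
    exact Finset.sum_congr rfl fun i _ => map_pow _ _ _
  have htr2 : Algebra.trace (ZMod p) K x = (n : ZMod p) := by
    apply (algebraMap (ZMod p) K).injective
    rw [htr, map_natCast]
  have hpsi : ψ (Algebra.trace (ZMod p) K x) = ev p M γ ^ n := by
    rw [htr2, hψ, ← AddChar.map_nsmul_eq_pow]
    simp
  rw [hpsi, Valuation.map_sub_swap]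
  exact hv

end Pool.Agent.Helper9.WS
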